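import Pool.Agent.N168.QS.Int

/-!
# Integral points on complements of tangent plane sections and conics on quadric surfaces

`X` is a smooth quadric surface over a number field `k` and `D ⊂ X` is a divisor over `k` which, over a
finite extension `K` of `k`, is the union of arbitrarily many tangent plane sections (pairs of lines,
which may be conjugate over `k`) and arbitrarily many plane sections over `k`. Vojta's inequality holds
for `X`, `D` and one place; if there are at least three plane sections, i.e. if `K_X + D` is big, and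
`k` has only one archimedean place (`ℚ` and the imaginary quadratic fields), then the integral points
of `X ∖ D` lie on finitely many plane sections, up to finitely many points.
-/

set_option autoImplicit false

namespace Pool.Agent.Results.MP_26d9ad_nt.QuadricSurfaces

open NumberField MvPolynomial
open scoped LinearAlgebra.Projectivization

/-- The places of a number field: the archimedean ones and the primes. -/
abbrev Place (k : Type) [Field k] [NumberField k] : Type :=
  InfinitePlace k ⊕ IsDedekindDomain.HeightOneSpectrum (𝓞 k)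

/-- The absolute value of a place: the usual one for an archimedean place, and `(N p) ^ (-ord_p x)`
for a prime `p`. -/
noncomputable def Place.value {k : Type} [Field k] [NumberField k] (v : Place k) (x : k) : ℝ :=
  match v with
  | Sum.inl w => w x
  | Sum.inr p => FinitePlace.mk p x

/-- The multiplicity: `1` for a real place, `2` for a complex place, `1` for a prime. -/
noncomputable def Place.mult {k : Type} [Field k] [NumberField k] (v : Place k) : ℝ :=
  match v with
  | Sum.inl w => w.mult
  | Sum.inr _ => 1

/-- The local height `[k : ℚ] d_v λ_v` at the point `x` of the surface section `F = 0` of degree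
`d`. -/
noncomputable def localHeight {k : Type} [Field k] [NumberField k] (v : Place k) (d : ℕ)
    (F : MvPolynomial (Fin 4) k) (x : Fin 4 → k) : ℝ :=
  v.mult * Real.log ((⨆ j, v.value (x j)) ^ d / v.value (eval x F))

/-- The vector `x` over the extension `L` satisfies the equation `∑ A_ij x_i x_j = 0`. -/
def OnQuadric {k L : Type} [Field k] [Field L] [Algebra k L] (A : Matrix (Fin 4) (Fin 4) k)
    (x : Fin 4 → L) : Prop :=
  ∑ i, ∑ j, algebraMap k L (A i j) * x i * x j = 0

/-- The coefficients of the planes: the tangent planes `∑ A_ab (P_i)_a x_b = 0` of the quadric at the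
points `P_i`, and the planes `∑ (m_j)_b x_b = 0` over `k`. -/
def plane {k K : Type} [Field k] [Field K] [Algebra k K] {t s : ℕ} (A : Matrix (Fin 4) (Fin 4) k)
    (P : Fin t → Fin 4 → K) (m : Fin s → Fin 4 → k) : Fin t ⊕ Fin s → Fin 4 → K
  | .inl i => fun b => ∑ a, algebraMap k K (A a b) * P i a
  | .inr j => fun b => algebraMap k K (m j b)

/-- Three of the planes have no common point on the quadric (over any extension field), and the point
of tangency `P_i` lies on the `i`-th plane only. (This holds if `D` has normal crossings.) -/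
structure IsCrossing {k K : Type} [Field k] [Field K] [Algebra k K] {t s : ℕ}
    (A : Matrix (Fin 4) (Fin 4) k) (P : Fin t → Fin 4 → K) (m : Fin s → Fin 4 → k) : Prop where
  three : ∀ (L : Type) [Field L] [Algebra K L] (y : Fin 4 → L), y ≠ 0 →
    ∑ i, ∑ j, algebraMap K L (algebraMap k K (A i j)) * y i * y j = 0 →
      ∀ i j l : Fin t ⊕ Fin s, i ≠ j → i ≠ l → j ≠ l →
        ¬ (∑ b, algebraMap K L (plane A P m i b) * y b = 0 ∧
          ∑ b, algebraMap K L (plane A P m j b) * y b = 0 ∧
          ∑ b, algebraMap K L (plane A P m l b) * y b = 0)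
  tangency : ∀ (i : Fin t) (l : Fin t ⊕ Fin s), l ≠ .inl i → ∑ b, plane A P m l b * P i b ≠ 0

/-- The points `P` of `X ∖ D` over `k` which are integral up to the denominator `N` at all primes, for
`X : ∑ A_ij x_i x_j = 0` and `D : F = 0` with `F` of degree `d`. -/
def integralPoints {k : Type} [Field k] [NumberField k] (A : Matrix (Fin 4) (Fin 4) k) (d : ℕ)
    (F : MvPolynomial (Fin 4) k) (N : k) : Set (ℙ k (Fin 4 → k)) :=
  {P | OnQuadric A P.rep ∧ eval P.rep F ≠ 0 ∧
    ∀ p : IsDedekindDomain.HeightOneSpectrum (𝓞 k),
      Place.value (.inr p) N * (⨆ j, Place.value (.inr p) (P.rep j)) ^ d ≤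
        Place.value (.inr p) (eval P.rep F)}

/-- **Integral points on complements in quadric surfaces.** Let `X : ∑ A_ij x_i x_j = 0` be a smooth
quadric surface over the number field `k` and let `D ⊂ X` be given by a form `F` over `k` which over
the number field `K ⊇ k` is the product of the equations of `t` tangent planes of `X` and of `s` planes
over `k`, such that `D` has crossings only. There is a finite set `Z` of planes over `k` such that
(i) for each place `v` of `k` and each `ε > 0` all points of `X(k)` off `D` and off `Z` satisfy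
`m_{v,D} + h_{K_X} ≤ ε h + C` (where `h_{K_X} = -2 h`; heights are relative to `k`);
(ii) if `k` has only one archimedean place and `t + s ≥ 3`, then for each `N ≠ 0` only finitely many
points of `X ∖ D` that are integral up to the denominator `N` lie off the planes of `Z`. -/
theorem result (k K : Type) [Field k] [NumberField k] [Field K] [NumberField K] [Algebra k K]
    {t s : ℕ} (A : Matrix (Fin 4) (Fin 4) k) (hA : A.IsSymm) (hdet : A.det ≠ 0)
    (P : Fin t → Fin 4 → K) (hP : ∀ i, P i ≠ 0 ∧ OnQuadric A (P i)) (m : Fin s → Fin 4 → k)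
    (hnc : IsCrossing A P m) (F : MvPolynomial (Fin 4) k) (c : K) (hc : c ≠ 0)
    (hF : map (algebraMap k K) F = C c * ∏ l, ∑ b, C (plane A P m l b) * X b) :
    ∃ Z : Finset (Fin 4 → k), (∀ z ∈ Z, z ≠ 0) ∧
      (∀ (v : Place k) (ε : ℝ), 0 < ε → ∃ C : ℝ, ∀ x : Fin 4 → k, x ≠ 0 → OnQuadric A x →
        eval x F ≠ 0 → (∀ z ∈ Z, ∑ j, z j * x j ≠ 0) →
        localHeight v (t + s) F x - 2 * Height.logHeight x ≤ ε * Height.logHeight x + C) ∧
      ((∀ w w' : InfinitePlace k, w = w') → 3 ≤ t + s → ∀ N : k, N ≠ 0 →
        {Q ∈ integralPoints A (t + s) F N | ∀ z ∈ Z, ∑ j, z j * Q.rep j ≠ 0}.Finite) := by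
  have hlin : ∀ g : Fin 4 → K, N168.QS.lin g = ∑ b, C (g b) * X b := fun g => rfl
  have hpl : ∀ l, N168.QS.forms A P m l = plane A P m l := by
    intro l
    rcases l with i | j <;> rfl
  have hq : ∀ x : Fin 4 → k, OnQuadric A x ↔ ∑ i, ∑ j, A i j * x i * x j = 0 := fun x => Iff.rfl
  have hnc' : N168.QS.NCk A P m := by
    refine ⟨fun L _ _ y hy hy' i j l h1 h2 h3 => ?_, fun i l hl => ?_⟩
    · rw [hpl, hpl, hpl]
      exact hnc.three L y hy hy' i j l h1 h2 h3
    · rw [hpl]
      exact hnc.tangency i l hl
  have hF' : map (algebraMap k K) F = C c * (∏ i, N168.QS.lin (N168.QS.forms A P m (.inl i))) *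
      ∏ j, N168.QS.lin (N168.QS.forms A P m (.inr j)) := by
    rw [hF, Fintype.prod_sum_type, mul_assoc]
    simp only [hlin, hpl]
  obtain ⟨Z, hZ, hmain⟩ := N168.QS.vojta A hA hdet P (fun i => (hP i).1) (fun i => (hP i).2) m hnc'
    F c hc hF'
  have hloc : ∀ (v : Place k) (d : ℕ) (x : Fin 4 → k), localHeight v d F x =
      Pool.Agent.W180.OP.wt v * Pool.Agent.W180.OP.lam (Pool.Agent.W180.OP.av v) d F x := by
    intro v d x
    rcases v with v | p
    · rfl
    · rfl
  refine ⟨Z, hZ, fun v ε hε => ?_, fun hone hts N hN => ?_⟩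
  · obtain ⟨C, hC⟩ := hmain v ε hε
    refine ⟨C, fun x hx hxq hFx hxZ => ?_⟩
    have h1 := hC x hx ((hq x).1 hxq) hFx hxZ
    rw [hloc]
    linarith
  · have h1 := N168.QS.finite (d := t + s) hts F hone
      (fun x => OnQuadric A x ∧ ∀ z ∈ Z, ∑ j, z j * x j ≠ 0) (by
        intro v ε hε
        obtain ⟨C, hC⟩ := hmain v ε hε
        exact ⟨C, fun x hx hFx hB => hC x hx ((hq x).1 hB.1) hFx hB.2⟩) hN
    refine h1.subset ?_
    rintro Q ⟨⟨q1, q2, q3⟩, q4⟩
    exact ⟨q2, ⟨q1, q4⟩, q3⟩

end Pool.Agent.Results.MP_26d9ad_nt.QuadricSurfaces
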